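import Pool.Agent.H24.SCG.Stmts

/-!
A finite field with `q = 5 mod 6` elements has no automorphism of order two.
-/

namespace Pool.Agent.H52.SCG

open Pool.SCG

theorem sq_mod_six (n : ℕ) : n ^ 2 % 6 ≠ 5 := by
  have h : n % 6 < 6 := Nat.mod_lt _ (by norm_num)
  rw [Nat.pow_mod]
  interval_cases n % 6 <;> norm_num

theorem fao_thm : FAOStmt := by
  intro F _ _ hq σ hσ
  by_contra hne
  classical
  haveI : Fact (Nat.Prime 2) := ⟨Nat.prime_two⟩
  have hord : orderOf σ = 2 := orderOf_eq_prime (by rw [pow_two]; exact hσ) hne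
  let G : Subgroup (F ≃+* F) := Subgroup.zpowers σ
  haveI : Finite (F ≃+* F) := by
    refine Finite.of_injective (fun f : F ≃+* F => (f : F → F)) ?_
    intro f g h
    exact DFunLike.coe_injective h
  haveI : Fintype G := Fintype.ofFinite G
  have hG : Fintype.card G = 2 := by
    rw [← Nat.card_eq_fintype_card]
    show Nat.card (Subgroup.zpowers σ) = 2
    rw [Nat.card_zpowers, hord]
  have hfin : Module.finrank (FixedPoints.subfield G F) F = Fintype.card G :=
    FixedPoints.finrank_eq_card G F
  haveI : Fintype (FixedPoints.subfield G F) := Fintype.ofFinite _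
  have hc := Module.card_eq_pow_finrank (K := FixedPoints.subfield G F) (V := F)
  rw [hfin, hG] at hc
  rw [hc] at hq
  exact sq_mod_six _ hq

end Pool.Agent.H52.SCG
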