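import Pool.Agent.H24.SCG.Stmts

/-!
Arithmetic conditions of a finite field with `q = 5 mod 6` elements.
-/

namespace Pool.Agent.H52.SCG

open Pool.SCG

theorem prime_ne_zero {F : Type} [Field F] [Fintype F] {p : ℕ} (hp : p.Prime)
    (h : ¬ p ∣ Fintype.card F) : (p : F) ≠ 0 := by
  intro h0
  haveI : Fact p.Prime := ⟨hp⟩
  apply h
  have h1 : addOrderOf (1 : F) = p := by
    refine addOrderOf_eq_prime ?_ one_ne_zero
    rw [nsmul_eq_mul, mul_one]
    exact h0
  rw [← h1]
  exact addOrderOf_dvd_card

theorem goo_thm : GOOStmt := by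
  intro F _ _ hq
  classical
  have h2 : (2 : F) ≠ 0 := by
    have := prime_ne_zero (F := F) Nat.prime_two (by omega)
    simpa using this
  have h3 : (3 : F) ≠ 0 := by
    have := prime_ne_zero (F := F) Nat.prime_three (by omega)
    simpa using this
  have hcop : (Nat.card Fˣ).Coprime 3 := by
    rw [Nat.card_eq_fintype_card, Fintype.card_units]
    rw [Nat.coprime_comm, Nat.Prime.coprime_iff_not_dvd Nat.prime_three]
    omega
  have hbij : Function.Bijective (fun u : Fˣ => u ^ 3) := by
    have := (powCoprime hcop).bijective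
    exact this
  refine ⟨⟨h2, ?_⟩, h3, ?_⟩
  · intro x hx
    have hx0 : x ≠ 0 := by
      rintro rfl
      norm_num at hx
    have hu : (Units.mk0 x hx0) ^ 3 = 1 ^ 3 := by
      apply Units.ext
      simp [hx]
    have := hbij.1 hu
    have h' := congrArg (fun u : Fˣ => (u : F)) this
    simpa using h'
  · intro x
    by_cases hx : x = 0
    · exact ⟨0, by rw [hx]; norm_num⟩
    · obtain ⟨u, hu⟩ := hbij.2 (Units.mk0 x hx)
      refine ⟨(u : F), ?_⟩
      have h' := congrArg (fun u : Fˣ => (u : F)) hu
      simpa using h'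

end Pool.Agent.H52.SCG
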